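import Pool.Agent.Run7.h444.WC4
import Pool.Agent.Y532.PV.Che

/-!
# The KLS conjecture in Cheeger form for few convex functions of bounded condition number

Q1, in the form of the inequality for sets `A` of measure one half, for all convex bodies

`K = {x ∈ ℝ^m | S_j(x) ≤ e_j for all j < r}` (bounded, with a point where all inequalities are strict),

and their images under affine maps of `ℝ^m` onto `ℝⁿ`, `m ≤ n + p`, where the `S_j ≥ 0` are convex
functions whose condition number relative to some quadratic form is at most `κ`: there are linear maps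
`A_j` on `ℝ^m`, which may have a kernel, such that

`S_j(x) - ‖A_j x‖² / 2` and `κ ‖A_j x‖² / 2 - S_j(x)` are convex.

The constant depends only on `κ`, `r` and `p`. Examples: intersections of `r` arbitrary ellipsoids and
elliptic cylinders, with arbitrary centres and axes (`κ = 1`, theorem `ellipsoids`), their sections by
subspaces of any dimension and their projections along `p` dimensions; intersections of `r` smooth
convex bodies with curvatures between two constants times those of an ellipsoid, of any sizes and in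
any position. By the reduction to measure one half quoted in the problem (Sternberg and Zumbrun) this
is `D_Che(λ_K) ≥ c D_Che^Lin(λ_K)` for these bodies.

The theorem is the one of helper444 for `MP_6d896a_gt` (`ConditionedLevelSets`, where the size of the
measure is given by its covariance), for the halfspace relaxation `D_Che^Lin` of this problem. Method:
the Gibbs densities `exp(-V)`, `V = ∑ l_j S_j`, `l_j > 0`, have the condition number `κ` relative to the
form `Q = ∑ l_j Q_j`, `Q_j = A_jᵀ A_j`; the inequality of Brascamp and Lieb and a lower bound for the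
variances of linear functionals give the inequality for all their linear images, with the constant
`κ` (modules `Run7.h444.WC1` to `WC4`); the passage from Gibbs densities to level sets, with any number
of constraints and any levels, is that of the starting file `GibbsLevelSets` of `MP_dc1397_gt`
(modules `N483.KM`), and the halfspace constant bounds the variances because it forces exponential
tails of the one-dimensional marginals (module `Y532.PV.Che` of the starting files).
-/

set_option autoImplicit false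

namespace Pool.Agent.Results.MP_8d00da_gt.ConditionedLevelSets

open MeasureTheory Set
open scoped ENNReal InnerProductSpace

/-- Euclidean space of dimension `n` -/
abbrev Euc (n : ℕ) : Type := EuclideanSpace ℝ (Fin n)

/-- `S - ‖A x‖²/2` and `κ ‖A x‖²/2 - S` are convex: `S` has condition number at most `κ` relative to
the quadratic form `‖A x‖²` (which may be degenerate) -/
structure Conditioned (κ : ℝ) {m k : ℕ} (A : Euc m →ₗ[ℝ] Euc k) (S : Euc m → ℝ) : Prop where
  lower : ConvexOn ℝ univ fun x => S x - ‖A x‖ ^ 2 / 2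
  upper : ConvexOn ℝ univ fun x => κ * (‖A x‖ ^ 2 / 2) - S x

/-- `K = {x | S_j(x) ≤ e_j for all j < r}`, bounded, with a point where all inequalities are strict,
for functions `S_j ≥ 0` of condition number at most `κ` relative to some quadratic forms -/
def ConditionedLevelSet (κ : ℝ) (r : ℕ) {m : ℕ} (K : Set (Euc m)) : Prop :=
  ∃ (k : Fin r → ℕ) (A : ∀ j, Euc m →ₗ[ℝ] Euc (k j)) (S : Fin r → Euc m → ℝ) (e : Fin r → ℝ),
    (∀ j, Conditioned κ (A j) (S j)) ∧ (∀ j x, 0 ≤ S j x) ∧ (∃ x, ∀ j, S j x < e j) ∧
    K = {x | ∀ j, S j x ≤ e j} ∧ Bornology.IsBounded K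

/-- Minkowski (exterior) boundary measure `μ⁺(A)` -/
noncomputable def bdry {n : ℕ} (μ : Measure (Euc n)) (A : Set (Euc n)) : ℝ≥0∞ :=
  Filter.liminf (fun ε : ℝ => (μ (Metric.thickening ε A) - μ A) / ENNReal.ofReal ε)
    (nhdsWithin 0 (Set.Ioi 0))

/-- the halfspace `⟪u, x⟫ ≤ b` -/
def halfspace {n : ℕ} (u : Euc n) (b : ℝ) : Set (Euc n) := {x | inner ℝ u x ≤ b}

/-- the uniform probability measure on `K` -/
noncomputable def unif {n : ℕ} (K : Set (Euc n)) : Measure (Euc n) :=
  (volume K)⁻¹ • volume.restrict K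

/-- the inequality of Kannan, Lovasz and Simonovits with constant `c` for the uniform measure `μ` on
`K` and sets of measure one half: if `t min(μ H, 1 - μ H) ≤ μ⁺(H)` for all halfspaces `H` then
`c t min(μ A, 1 - μ A) ≤ μ⁺(A)` for all measurable `A` with `μ A = 1/2` -/
def KLSHalf {n : ℕ} (c : ℝ) (K : Set (Euc n)) : Prop :=
  ∀ t : ℝ≥0∞, (∀ (u : Euc n) (b : ℝ), u ≠ 0 →
      t * min (unif K (halfspace u b)) (1 - unif K (halfspace u b)) ≤
        bdry (unif K) (halfspace u b)) →
    ∀ A : Set (Euc n), MeasurableSet A → unif K A = 1 / 2 →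
      ENNReal.ofReal c * t * min (unif K A) (1 - unif K A) ≤ bdry (unif K) A

theorem affine_eq {m n : ℕ} (T : Euc m →ᵃ[ℝ] Euc n) (K : Set (Euc m)) :
    T '' K = (fun x => T 0 + T.linear x) '' K := by
  refine image_congr fun x _ => ?_
  have h := T.map_vadd 0 x
  rw [vadd_eq_add, add_zero] at h
  rw [h, vadd_eq_add, add_comm]

/-- the functional inequality for affine images, for the class `ConditionedLevelSet κ r` -/
theorem star_of (κ : ℝ) (r p : ℕ) (hκ : 0 ≤ κ) : ∃ c : ℝ, 0 < c ∧
    ∀ (m n : ℕ) (K : Set (Euc m)) (T : Euc m →ᵃ[ℝ] Euc n), 1 ≤ n → ConditionedLevelSet κ r K →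
    m ≤ n + p → Function.Surjective T → IsCompact (T '' K) ∧ Convex ℝ (T '' K) ∧
    (interior (T '' K)).Nonempty ∧
    Pool.Agent.Y506.RG.Star c (Pool.Agent.Y506.PV.ind (T '' K)) := by
  obtain ⟨c, hc, H⟩ := Pool.Agent.N483.KM.micro_star (fun _ => κ) r 0 p
  refine ⟨c, hc, fun m n K T hn hK hm hT => ?_⟩
  have hT' : Function.Surjective T.linear := by rwa [AffineMap.linear_surjective_iff]
  have hmn : n ≤ m := by
    have h1 := LinearMap.finrank_le_finrank_of_surjective hT'
    simpa using h1
  obtain ⟨kk, A, S, e, h1, h2, h3, h4, h5⟩ := hK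
  have hCL : Run7.h444.CL κ S A e K := ⟨fun j => (h1 j).lower, fun j => (h1 j).upper, h2, h5, h3, h4⟩
  have h6 := H m n _ T.linear (T 0) (hCL.micro hκ (hn.trans hmn)) hm hT'
  rw [← affine_eq] at h6
  exact h6

/-- **KLS (Cheeger form) for few convex functions of bounded condition number.** For all `κ ≥ 0`, `r`
and `p` there is `c > 0` such that for all `m`, `n ≥ 1`, all bodies `K = {x | S_j(x) ≤ e_j, j < r}` in `ℝ^m` of
the class `ConditionedLevelSet κ r` and all affine maps `T` of `ℝ^m` onto `ℝⁿ`, `m ≤ n + p`, the body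
`T '' K` satisfies the inequality of Kannan, Lovasz and Simonovits with constant `c` for all sets of
measure one half. -/
theorem result : ∀ (κ : ℝ) (r p : ℕ), 0 ≤ κ → ∃ c : ℝ, 0 < c ∧
    ∀ (m n : ℕ) (K : Set (Euc m)) (T : Euc m →ᵃ[ℝ] Euc n), 1 ≤ n → ConditionedLevelSet κ r K →
    m ≤ n + p → Function.Surjective T → KLSHalf c (T '' K) := by
  intro κ r p hκ
  obtain ⟨c, hc, H⟩ := star_of κ r p hκ
  obtain ⟨c', hc', H'⟩ := Pool.Agent.Y532.PV.che c hc
  refine ⟨c', hc', fun m n K T hn hK hm hT => ?_⟩
  obtain ⟨h1, h2, h3, h4⟩ := H m n K T hn hK hm hT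
  intro t ht A hA hA2
  have hprob : IsProbabilityMeasure (unif (T '' K)) :=
    Pool.Agent.Y506.KS.unif_prob (Pool.Agent.Y506.PV.vol_pos h3) h1.measure_lt_top.ne
  have key := H' n _ h1 h2 h3 h4 (unif (T '' K)) rfl t ht A hA2
  refine le_trans ?_ key
  calc ENNReal.ofReal c' * t * min (unif (T '' K) A) (1 - unif (T '' K) A)
      ≤ ENNReal.ofReal c' * t * 1 := mul_le_mul_right ((min_le_left _ _).trans prob_le_one) _
    _ = _ := mul_one _

/-- intersections of `r` ellipsoids and elliptic cylinders -/
theorem ellipsoids (r m : ℕ) (k : Fin r → ℕ) (A : ∀ j, Euc m →ₗ[ℝ] Euc (k j))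
    (b : ∀ j, Euc (k j)) (K : Set (Euc m)) (hK : K = {x | ∀ j, ‖A j x + b j‖ ≤ 1})
    (hb : Bornology.IsBounded K) (hx : ∃ x, ∀ j, ‖A j x + b j‖ < 1) :
    ConditionedLevelSet 1 r K := by
  have hA : ∀ j x, ‖(Real.sqrt 2 • A j) x‖ ^ 2 / 2 = ‖A j x‖ ^ 2 := by
    intro j x
    rw [LinearMap.smul_apply, norm_smul, mul_pow, Real.norm_of_nonneg (Real.sqrt_nonneg _),
      Real.sq_sqrt (by norm_num)]
    ring
  have he : ∀ j x, ‖A j x + b j‖ ^ 2 - ‖A j x‖ ^ 2 = 2 * ⟪A j x, b j⟫_ℝ + ‖b j‖ ^ 2 := by
    intro j x
    rw [@norm_add_sq_real]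
    ring
  refine ⟨k, fun j => Real.sqrt 2 • A j, fun j x => ‖A j x + b j‖ ^ 2, fun _ => 1,
    fun j => ⟨?_, ?_⟩, fun j x => sq_nonneg _, ?_, ?_, hb⟩
  · simp only [hA, he]
    refine ⟨convex_univ, fun x _ y _ a c ha hc hac => le_of_eq ?_⟩
    simp only [smul_eq_mul, map_add, map_smul, inner_add_left, inner_smul_left, conj_trivial]
    have : c = 1 - a := by linarith
    rw [this]
    ring
  · simp only [hA, one_mul]
    have he' : ∀ x, ‖A j x‖ ^ 2 - ‖A j x + b j‖ ^ 2 = -(2 * ⟪A j x, b j⟫_ℝ + ‖b j‖ ^ 2) := by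
      intro x
      rw [← he]
      ring
    simp only [he']
    refine ⟨convex_univ, fun x _ y _ a c ha hc hac => le_of_eq ?_⟩
    simp only [smul_eq_mul, map_add, map_smul, inner_add_left, inner_smul_left, conj_trivial]
    have : c = 1 - a := by linarith
    rw [this]
    ring
  · obtain ⟨x, hx⟩ := hx
    exact ⟨x, fun j => (sq_lt_one_iff₀ (norm_nonneg _)).2 (hx j)⟩
  · rw [hK]
    ext x
    simp only [mem_ofPred_eq]
    exact forall_congr' fun j => (sq_le_one_iff₀ (norm_nonneg _)).symm

end Pool.Agent.Results.MP_8d00da_gt.ConditionedLevelSets
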