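import Pool.Agent.Run7.h523.KF.ALLL

/-!
# KLS (Poincare form) for independent samples of a log-concave law conditioned on a partial order

Let `X_1, ..., X_n` be independent with any log-concave law `ρ` on the line, and let `μ` be the law of
`(X_1, ..., X_n)` conditioned on `X_i ≤ X_j` for all `(i, j)` in any set `A` of pairs for which this event has a
positive probability (for example the relations of a partial order). Then

`Var f(X) ≤ 48 Var(ρ) E ‖∇ f(X)‖²`, and `Var (X_1 + ... + X_n) = n Var(ρ)`,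

so `D_Poin(μ)² ≤ 48 Var(ρ) ≤ 48 D_Poin^Lin(μ)²`: the form of the conjecture which the problem file gives as
equivalent, with the explicit constant `√48 < 7` for this family of log-concave measures in all
dimensions. (Uniform `ρ` gives the order polytopes, the starting file `OrderPolytopes`; for the other
laws the result is new as far as I know. No symmetry of `ρ` is assumed, the measures are in general far
from unconditional.)

Proof. (1) Labels on the odd integers of absolute value `< 2M`, at most one on `{z, -z}`, subject to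
`x_i ≤ x_j`. The bond `j ≥ 1` exchanges the levels `2j-1` and `2j+1` (on both sides of zero), the bond `0`
exchanges `1` and `-1`, moves which violate a constraint are suppressed, `D_j f(x) = f(x) - f(s_j x)`. Bonds
which are not adjacent commute, `⟨D_j f, D_k f⟩ ≥ 0`; the orbits of two adjacent bonds are hexagons (octagons for
the bonds 0 and 1), the constraints cut them to at most half of the polygon, and
`⟨D_j f, D_{j+1} f⟩ ≥ - cos(π/3) ‖D_j f‖ ‖D_{j+1} f‖` (`cos(π/4)` for `j = 0`). Hence
`‖∑ c_j D_j f‖² ≥ γ ∑ c_j ‖D_j f‖²` for all weights `c` with a positive supersolution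
`c_j (2 h_j - h_{j+1} - h_{j-1}) ≥ 2 γ h_j`; by duality, and in the limit `M → ∞`, this gives
the WEIGHTED Poincare inequality `Var f ≤ ∑ E W(y_i) (∂_i f)²`, `W(y) = (1 - y²)²`, for the order polytope in
the cube `[-1, 1]ⁿ`.
(2) Let `T` be the monotone map which moves the uniform law on `[-1, 1]` to `ρ`. Log-concavity gives
`T'(y) ≤ B / (1 - y²)` with `B² ≤ 48 Var(ρ)` (one-dimensional Cheeger inequality for log-concave laws), and
the map `(T, ..., T)` keeps all the inequalities `x_i ≤ x_j`. So (1) gives the first claim; `T` need not be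
Lipschitz, which is why the weighted inequality is needed.
(3) `E Φ(X) 1(X ∈ cone)` for symmetric `Φ` is `E Φ(X) P(X ∈ cone)`.

Pieces by helpers 11, 67, 136, 194, 224, 299, 324, 340, 523, 531, 590, 593, 603, 704, 721, 760, 768, 847, 915, 961.
-/

set_option autoImplicit false

namespace Pool.Agent.Results.MP_8d00da_gt.OrderedSamples

open MeasureTheory Set
open scoped ENNReal InnerProductSpace

/-- Euclidean space of dimension `n` -/
abbrev Euc (n : ℕ) : Type := EuclideanSpace ℝ (Fin n)

/-- the probability measure with density proportional to `w` on `K` -/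
noncomputable def cond {n : ℕ} (w : Euc n → ℝ) (K : Set (Euc n)) : Measure (Euc n) :=
  (((volume.withDensity fun x => ENNReal.ofReal (w x)).restrict K) univ)⁻¹ •
    (volume.withDensity fun x => ENNReal.ofReal (w x)).restrict K

/-- the cone `x_i ≤ x_j` for `(i, j) ∈ A` -/
def cone {n : ℕ} (A : Set (Fin n × Fin n)) : Set (Euc n) := {x | ∀ p ∈ A, x p.1 ≤ x p.2}

/-- log-concave probability densities on the line -/
structure LineDensity (ρ : ℝ → ℝ) : Prop where
  nonneg : ∀ x, 0 ≤ ρ x
  meas : Measurable ρ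
  logc : ∀ x y, ∀ t : ℝ, 0 < t → t < 1 → ρ x ^ (1 - t) * ρ y ^ t ≤ ρ ((1 - t) * x + t * y)
  mass : ∫⁻ x, ENNReal.ofReal (ρ x) = 1

/-- the product density, the law of `n` independent variables with density `ρ` -/
noncomputable def prod {n : ℕ} (ρ : ℝ → ℝ) (x : Euc n) : ℝ := ∏ i, ρ (x i)

/-- Poincare's inequality with the constant `C` for bounded `C¹` functions with bounded gradient -/
def Poincare {n : ℕ} (C : ℝ) (μ : Measure (Euc n)) : Prop :=
  ∀ f : Euc n → ℝ, ContDiff ℝ 1 f → (∃ M : ℝ, ∀ x, |f x| ≤ M ∧ ‖fderiv ℝ f x‖ ≤ M) →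
    ProbabilityTheory.variance f μ ≤ C * ∫ x, ‖fderiv ℝ f x‖ ^ 2 ∂μ

/-! ### translation -/

open Run7.h523.KF

/-- the relation between signed labels -/
def RR {n : ℕ} (A : Set (Fin n × Fin n)) (a b : Fin n × Bool) : Prop :=
  a.2 = true ∧ b.2 = true ∧ (a.1, b.1) ∈ A

theorem cone_eq {n : ℕ} (A : Set (Fin n × Fin n)) : cone A = EE (KC (RR A)) := by
  ext x
  constructor
  · intro h1
    rintro ⟨i, a⟩ ⟨j, b⟩ ⟨ha, hb, h⟩
    have := h1 _ h
    simp only at ha hb this
    subst ha hb
    simpa [sv] using this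
  · intro h p hp
    have := h (p.1, true) (p.2, true) ⟨rfl, rfl, hp⟩
    simpa [sv] using this

theorem typeA {n : ℕ} (A : Set (Fin n × Fin n)) : TypeA (RR A) := by
  rintro a b ⟨ha, hb, -⟩
  exact ⟨ha, hb⟩

theorem ne_fin {n : ℕ} (hn : 1 ≤ n) : Nonempty (Fin n) := ⟨⟨0, hn⟩⟩

theorem bf_of {n : ℕ} {f : Euc n → ℝ} (hf : ContDiff ℝ 1 f) {M : ℝ}
    (hM : ∀ x, |f x| ≤ M ∧ ‖fderiv ℝ f x‖ ≤ M) :
    Bf (fun y : Fin n → ℝ => f (WithLp.toLp 2 y)) M where
  cd := hf.comp PiLp.contDiff_toLp
  bd := fun x => (hM _).1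
  db := fun x v => by
    rw [fd_toLp (hf.differentiable one_ne_zero), ← Real.norm_eq_abs]
    refine ((fderiv ℝ f (WithLp.toLp 2 x)).le_opNorm _).trans ?_
    rw [EuclideanSpace.norm_single, norm_one, mul_one]
    exact (hM _).2

theorem cond_eq {n : ℕ} (w : Euc n → ℝ) (K : Set (Euc n)) : cond w K = cnd w K := rfl

theorem poinc_of {n : ℕ} {w : Euc n → ℝ} (hw0 : ∀ x, 0 ≤ w x) (hwm : Measurable w)
    {K : Set (Fin n → ℝ)} (hK : MeasurableSet K) (hZ : 0 < ∫ y in K, w (WithLp.toLp 2 y)) (C : ℝ)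
    (H : ∀ (f : (Fin n → ℝ) → ℝ) (M : ℝ), Bf f M →
      (∫ y in K, f y ^ 2 * w (WithLp.toLp 2 y)) / (∫ y in K, w (WithLp.toLp 2 y)) -
        ((∫ y in K, f y * w (WithLp.toLp 2 y)) / ∫ y in K, w (WithLp.toLp 2 y)) ^ 2 ≤
      C * ((∫ y in K, gr f y * w (WithLp.toLp 2 y)) / ∫ y in K, w (WithLp.toLp 2 y))) :
    Poincare C (cond w (EE K)) := by
  intro f hf ⟨M, hM⟩
  rw [cond_eq]
  have hprob := cnd_prob hw0 hwm hK hZ
  have hi : Integrable (fun x => f x ^ 2) (cnd w (EE K)) := by
    refine Integrable.of_bound (hf.continuous.pow 2).aestronglyMeasurable (M ^ 2)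
      (Filter.Eventually.of_forall fun x => ?_)
    rw [Real.norm_eq_abs, abs_pow]
    exact pow_le_pow_left₀ (abs_nonneg _) (hM x).1 2
  rw [cnd_var hw0 hwm hK hZ f hf.continuous.aestronglyMeasurable hi,
    cnd_int hw0 hwm hK hZ (fun x => ‖fderiv ℝ f x‖ ^ 2)]
  have h1 := H _ M (bf_of hf hM)
  simp only [gr_toLp (hf.differentiable one_ne_zero)] at h1
  exact h1

theorem part_e {n : ℕ} (hn : 1 ≤ n) {ρ : ℝ → ℝ} (h : LineDensity ρ) (A : Set (Fin n × Fin n))
    (hp : 0 < (volume.withDensity fun x : Euc n => ENNReal.ofReal (prod ρ x)) (cone A))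
    (m : ℝ) (hm : m = ∫ x, x * ρ x) : Integrable (fun x => (x - m) ^ 2 * ρ x) ∧
    Poincare (48 * ∫ x, (x - m) ^ 2 * ρ x) (cond (prod ρ) (cone A)) ∧
    ProbabilityTheory.variance (fun x : Euc n => ∑ j, x j) (cond (prod ρ) (cone A)) =
      n * ∫ x, (x - m) ^ 2 * ρ x := by
  have hne := ne_fin hn
  have hL : LCD ρ := ⟨h.nonneg, h.meas, h.logc, h.mass⟩
  have hw0 : ∀ x : Euc n, 0 ≤ prod ρ x := fun x => Finset.prod_nonneg fun i _ => h.nonneg _
  have hwm : Measurable (prod ρ : Euc n → ℝ) :=
    Finset.measurable_prod _ fun i _ =>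
      h.meas.comp ((measurable_pi_apply i).comp (WithLp.measurable_ofLp 2 _))
  rw [cone_eq] at hp ⊢
  have hKm : MeasurableSet (KC (RR A)) := (KC_closed _).measurableSet
  have hint1 : Integrable ρ := by
    refine ⟨h.meas.aestronglyMeasurable, ?_⟩
    rw [hasFiniteIntegral_iff_ofReal (Filter.Eventually.of_forall h.nonneg), h.mass]
    exact ENNReal.one_lt_top
  have hint : Integrable fun y : Fin n → ℝ => ∏ i, ρ (y i) :=
    Integrable.fintype_prod fun _ => hint1
  have hZ : 0 < ∫ y in KC (RR A), prod ρ (WithLp.toLp 2 y) := by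
    rw [← int_EE]
    rw [withDensity_apply _ (EE_meas hKm)] at hp
    have h2 : IntegrableOn (prod ρ) (EE (KC (RR A))) := by
      have h3 := (PiLp.volume_preserving_toLp (Fin n)).integrable_comp_emb
        (MeasurableEquiv.toLp 2 (Fin n → ℝ)).measurableEmbedding (g := prod ρ)
      exact (h3.1 hint).integrableOn
    rw [← ENNReal.ofReal_pos, ofReal_integral_eq_lintegral_ofReal h2
      (Filter.Eventually.of_forall hw0)]
    exact hp
  obtain ⟨g1, g2, g3, g4⟩ := all_lcp (Fin n) (RR A) ρ m (typeA A) hL hm hZ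
  refine ⟨g1, poinc_of hw0 hwm hKm hZ _ fun f M hf => g2 f M hf, ?_⟩
  rw [cond_eq]
  have hms : Measurable fun x : Euc n => ∑ j, x j :=
    Finset.measurable_sum _ fun j _ => (measurable_pi_apply j).comp (WithLp.measurable_ofLp 2 _)
  rw [cnd_var hw0 hwm hKm hZ _ hms.aestronglyMeasurable
    (cnd_integrable hw0 hwm hKm hZ _ (hms.pow_const 2) g3)]
  rw [Fintype.card_fin] at g4
  exact g4

theorem poinc_mono {n : ℕ} {C C' : ℝ} (h : C ≤ C') {μ : Measure (Euc n)} (hμ : Poincare C μ) :
    Poincare C' μ := fun f hf hM => (hμ f hf hM).trans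
  (mul_le_mul_of_nonneg_right h (integral_nonneg fun x => sq_nonneg _))

/-- the direction `(1, …, 1) / √n` -/
noncomputable def diag (n : ℕ) : Euc n := WithLp.toLp 2 fun _ => (Real.sqrt n)⁻¹

theorem diag_norm {n : ℕ} (hn : 1 ≤ n) : ‖diag n‖ = 1 := by
  have hn' : (0 : ℝ) < n := by exact_mod_cast hn
  rw [EuclideanSpace.norm_eq]
  simp only [diag, norm_inv, Real.norm_eq_abs, inv_pow, sq_abs, Real.sq_sqrt hn'.le,
    Finset.sum_const, Finset.card_univ, Fintype.card_fin, nsmul_eq_mul]
  rw [mul_inv_cancel₀ hn'.ne', Real.sqrt_one]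

theorem diag_inner {n : ℕ} (x : Euc n) : ⟪x, diag n⟫_ℝ = (Real.sqrt n)⁻¹ * ∑ j, x j := by
  rw [PiLp.inner_apply, Finset.mul_sum]
  refine Finset.sum_congr rfl fun j _ => ?_
  simp [diag]

/-- **Independent samples of a log-concave law conditioned on a partial order.** Let `ρ` be any
log-concave probability density on the line, with mean `m` and variance `v` (finite), `n ≥ 1`, `A` any set
of pairs such that the event `x_i ≤ x_j` for all `(i, j) ∈ A` has a positive probability for independent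
variables with density `ρ`, and `μ` the law of these variables conditioned on this event. Then `μ`
satisfies Poincare's inequality with the constant `48 v`, the sum of the coordinates has variance `n v`
under `μ`, and hence `μ` satisfies Poincare's inequality with the constant `48 s` for every upper bound
`s` of the variances of the marginals in directions of length one: `D_Poin(μ) ≤ √48 D_Poin^Lin(μ)`. -/
theorem result (n : ℕ) (hn : 1 ≤ n) (A : Set (Fin n × Fin n)) (ρ : ℝ → ℝ) (hρ : LineDensity ρ)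
    (hA : 0 < (volume.withDensity fun x : Euc n => ENNReal.ofReal (prod ρ x)) (cone A))
    (m v : ℝ) (hm : m = ∫ x, x * ρ x) (hv : v = ∫ x, (x - m) ^ 2 * ρ x) :
    Integrable (fun x => (x - m) ^ 2 * ρ x) ∧
    Poincare (48 * v) (cond (prod ρ) (cone A)) ∧
    ProbabilityTheory.variance (fun x : Euc n => ∑ j, x j) (cond (prod ρ) (cone A)) = n * v ∧
    ∀ s : ℝ, (∀ θ : Euc n, ‖θ‖ = 1 →
      ProbabilityTheory.variance (fun x => ⟪x, θ⟫_ℝ) (cond (prod ρ) (cone A)) ≤ s) →
        Poincare (48 * s) (cond (prod ρ) (cone A)) := by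
  obtain ⟨h1, h2, h3⟩ := part_e hn hρ A hA m hm
  rw [← hv] at h2 h3
  refine ⟨h1, h2, h3, fun s hs => poinc_mono ?_ h2⟩
  have hn' : (0 : ℝ) < n := by exact_mod_cast hn
  have h4 := hs (diag n) (diag_norm hn)
  simp only [diag_inner] at h4
  rw [ProbabilityTheory.variance_const_mul, h3, inv_pow, Real.sq_sqrt hn'.le, ← mul_assoc,
    inv_mul_cancel₀ hn'.ne', one_mul] at h4
  linarith

end Pool.Agent.Results.MP_8d00da_gt.OrderedSamples
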