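import Pool.Agent.Run7.h444.SC.I

/-!
# Concentration of symmetric sets at one scale implies the KLS inequality

For a convex body `K = -K ⊂ ℝⁿ` let `λ_K` be its uniform measure, `D_Che` its isoperimetric constant
(for sets of measure one half), `D_Che^Lin` that of halfspaces, and `r_sym` the least `r` such that all SYMMETRIC
Borel sets `S = -S` with `λ_K(S) ≥ 1/2` have `λ_K(S_r) ≥ 1 - p`. There are absolute constants
`p, c > 0` such that, for all `n` and `K`,

  `D_Che(λ_K) ≥ c min (D_Che^Lin(λ_K), 1 / r_sym)`   and   `D_Che(λ_K) ≥ c / (r_sym + ‖Cov(λ_K)‖^{1/2})`.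

So the inequality of Kannan, Lovasz and Simonovits holds (up to constants) for those symmetric bodies
where symmetric sets of measure one half fill all but the share `p` of the body at the distance
`C / D_Che^Lin`, one scale and one level `p`. This is the theorem of E. Milman (concentration implies
isoperimetry, for log-concave measures) with symmetric test sets only. Symmetric sets know nothing
about halfspaces and other odd functions, whose contribution is controlled by the covariance.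

Proof. Let `ν = λ_K`, and let `P f(y) = E (f(X) | X + √h Z = y)`, `v = P* P f` (`X` of law `ν`, `Z` Gaussian).
(1) Even functions: `v` is even and `‖∇ v‖ ≤ h^{-1/2}` if `|f| ≤ 1`; so the concentration of symmetric sets
gives `Var f ≤ δ + A E ‖∇ f‖²` for even `f`, `|f| ≤ 1`, with `δ = 16 p`, `A = 4 r² / δ`. (2) The same, with
an error term which does not depend on the dimension, for even vector fields `G`, `‖G‖ ≤ L` (random
signs and a truncation). (3) Odd functions `f` with `|f| ≤ 1`, `‖∇ f‖ ≤ L`: the field `∇ v` is even, so by (2)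
and the discrete inequality of Bochner `E ‖∇ v‖² + h E ‖D² v‖² ≤ E ‖∇ f‖²` and by
`h ‖E ∇ v‖² ≤ s E ‖∇ f‖²`, `s` the largest variance, one has `E ‖∇ v‖² ≤ E ‖∇ f‖² / 2 + η L²` for `h = 2 A + 2 s`,
`η` small with `δ`. After `m` steps `E ‖∇ v_m‖² ≤ 3 η L²` and `Var f ≤ Var v_m + 2 h m L²`.
(4) Let `R` be the concentration radius for ALL sets (sets of measure `p₀` have `R`-neighbourhoods of measure
more than one half). The starting library gives `Var g ≤ C M^{-3/2} + M R² E ‖∇ g‖² / 64` for all `g`,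
`|g| ≤ 1`, and, if the radius is not at most `R / 2`, a function `F` with `|F| ≤ 1`, `‖∇ F‖ ≤ 8 / R` and `Var F ≥ c`.
Split `F` into the even part (symmetric sets) and the odd part (by (3), `g = v_m`): if
`R² ≥ C (r² + s)` then `Var F < c`. So `R` can be halved until `R² ≤ C (r² + s)`. (5) The weak Poincare
inequality with this `R` implies the isoperimetric inequality (starting library `W695.KH`, Ledoux's
argument for a discrete heat flow).
-/

set_option autoImplicit false

namespace Pool.Agent.Results.MP_8d00da_gt.SymmetricConcentration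

open MeasureTheory Set
open scoped ENNReal InnerProductSpace

/-- Euclidean space of dimension `n` -/
abbrev Euc (n : ℕ) : Type := EuclideanSpace ℝ (Fin n)

/-- the uniform probability measure on `K` -/
noncomputable def unif {n : ℕ} (K : Set (Euc n)) : Measure (Euc n) :=
  (volume K)⁻¹ • volume.restrict K

/-- convex bodies `K = -K` -/
structure SymmetricBody {n : ℕ} (K : Set (Euc n)) : Prop where
  comp : IsCompact K
  conv : Convex ℝ K
  int : (interior K).Nonempty
  symm : ∀ x ∈ K, -x ∈ K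

/-- the boundary measure `μ⁺(S)`, the lower limit of `(μ(S_ε) - μ(S)) / ε` for the open
neighbourhoods `S_ε` of `S` -/
noncomputable def bdry {n : ℕ} (μ : Measure (Euc n)) (S : Set (Euc n)) : ℝ≥0∞ :=
  Filter.liminf (fun ε : ℝ => (μ (Metric.thickening ε S) - μ S) / ENNReal.ofReal ε)
    (nhdsWithin 0 (Set.Ioi 0))

/-- the halfspace `⟪u, x⟫ ≤ b` -/
def halfspace {n : ℕ} (u : Euc n) (b : ℝ) : Set (Euc n) := {x | inner ℝ u x ≤ b}

/-- concentration of symmetric sets: for each Borel set `S = -S` with `λ_K(S) ≥ 1/2`, the open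
`r`-neighbourhood of `S` has measure at least `1 - p` -/
def SymmetricSetsConcentrate {n : ℕ} (K : Set (Euc n)) (p r : ℝ) : Prop :=
  ∀ S : Set (Euc n), MeasurableSet S → (∀ x, x ∈ S → -x ∈ S) → 1 / 2 ≤ unif K S →
    ENNReal.ofReal (1 - p) ≤ unif K (Metric.thickening r S)

theorem vol_pos {n : ℕ} {K : Set (Euc n)} (h : (interior K).Nonempty) : 0 < volume K :=
  lt_of_lt_of_le (isOpen_interior.measure_pos volume h) (measure_mono interior_subset)

theorem symC_of {n : ℕ} {K : Set (Euc n)} (hK : SymmetricBody K) {p r : ℝ}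
    (H : SymmetricSetsConcentrate K p r) : Run7.h444.SC.SymC (unif K) p r := by
  have hprob : IsProbabilityMeasure (unif K) :=
    Pool.Agent.R754.KG.un_prob (vol_pos hK.int).ne' hK.comp.measure_lt_top.ne
  intro S hS hsym h2
  have h3 := H S hS hsym (by
    rw [← ofReal_measureReal (μ := unif K) (s := S)]
    have e : (1 / 2 : ℝ≥0∞) = ENNReal.ofReal (1 / 2) := by
      rw [ENNReal.ofReal_div_of_pos (by norm_num)]
      norm_num
    rw [e]
    exact ENNReal.ofReal_le_ofReal h2)
  rw [← ofReal_measureReal (μ := unif K) (s := Metric.thickening r S),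
    ENNReal.ofReal_le_ofReal_iff measureReal_nonneg] at h3
  exact h3

theorem cov_of {n : ℕ} {μ : Measure (Euc n)} {s : ℝ}
    (H : ∀ θ : Euc n, ‖θ‖ = 1 → ∫ x, ⟪x, θ⟫_ℝ ^ 2 ∂μ ≤ s) (w : Euc n) :
    ∫ x, ⟪x, w⟫_ℝ ^ 2 ∂μ ≤ s * ‖w‖ ^ 2 := by
  by_cases hw : w = 0
  · subst hw
    simp
  · have hn : 0 < ‖w‖ := norm_pos_iff.2 hw
    have h1 := H (‖w‖⁻¹ • w) (by rw [norm_smul, norm_inv, norm_norm, inv_mul_cancel₀ hn.ne'])
    have e : ∀ x : Euc n, ⟪x, w⟫_ℝ ^ 2 = ‖w‖ ^ 2 * ⟪x, ‖w‖⁻¹ • w⟫_ℝ ^ 2 := by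
      intro x
      rw [inner_smul_right, mul_pow, ← mul_assoc, ← mul_pow, mul_inv_cancel₀ hn.ne', one_pow,
        one_mul]
    simp only [e]
    rw [integral_const_mul, mul_comm]
    exact mul_le_mul_of_nonneg_right h1 (by positivity)

/-- **The KLS inequality for symmetric bodies from the concentration of symmetric sets.** -/
theorem result : ∃ p c : ℝ, 0 < p ∧ 0 < c ∧ ∀ (n : ℕ) (K : Set (Euc n)), SymmetricBody K →
    ∀ r : ℝ, 0 < r → SymmetricSetsConcentrate K p r →
    (∀ t : ℝ, 0 < t →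
      (∀ (u : Euc n) (b : ℝ), u ≠ 0 → ENNReal.ofReal t *
        min (unif K (halfspace u b)) (1 - unif K (halfspace u b)) ≤
          bdry (unif K) (halfspace u b)) →
      ∀ A : Set (Euc n), MeasurableSet A → unif K A = 1 / 2 →
        ENNReal.ofReal (c * min t (1 / r)) * min (unif K A) (1 - unif K A) ≤
          bdry (unif K) A) ∧
    (∀ s : ℝ, 0 ≤ s → (∀ θ : Euc n, ‖θ‖ = 1 → ∫ x, ⟪x, θ⟫_ℝ ^ 2 ∂(unif K) ≤ s) →
      ∀ A : Set (Euc n), MeasurableSet A → unif K A = 1 / 2 →
        ENNReal.ofReal (c / (r + Real.sqrt s)) * min (unif K A) (1 - unif K A) ≤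
          bdry (unif K) A) := by
  obtain ⟨p, Q, hp, hQ, H⟩ := Run7.h444.SC.main
  obtain ⟨Ch, hCh, HH⟩ := Pool.Agent.W695.KH.half
  obtain ⟨c, hc⟩ : ∃ c, c = 1 / (4 * Q * (1 + Real.sqrt Ch)) := ⟨_, rfl⟩
  have hsC : 0 ≤ Real.sqrt Ch := Real.sqrt_nonneg _
  have hc0 : 0 < c := by rw [hc]; positivity
  have hc1 : c ≤ 1 / (4 * Q) := by
    rw [hc]
    refine div_le_div_of_nonneg_left zero_le_one (by positivity) ?_
    nlinarith
  have hc2 : c * (1 + Real.sqrt Ch) = 1 / (4 * Q) := by
    rw [hc]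
    field_simp
  -- the second part, with the constant `1 / (4 Q)`
  have key : ∀ (n : ℕ) (K : Set (Euc n)), SymmetricBody K → ∀ r : ℝ, 0 < r →
      SymmetricSetsConcentrate K p r → ∀ s : ℝ, 0 ≤ s →
      (∀ θ : Euc n, ‖θ‖ = 1 → ∫ x, ⟪x, θ⟫_ℝ ^ 2 ∂(unif K) ≤ s) →
      ∀ A : Set (Euc n), unif K A = 1 / 2 →
        ENNReal.ofReal (1 / (4 * Q) / (r + Real.sqrt s)) ≤ bdry (unif K) A := by
    intro n K hK r hr hS s hs hcov A hA
    have h1 := H n K hK.comp hK.conv (vol_pos hK.int) hK.symm (unif K) rfl r s hr hs (cov_of hcov)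
      (symC_of hK hS) A hA
    have hss : 0 ≤ Real.sqrt s := Real.sqrt_nonneg _
    have h2 : Real.sqrt (r ^ 2 + s) ≤ r + Real.sqrt s := by
      refine Real.sqrt_le_iff.2 ⟨by positivity, ?_⟩
      have := Real.sq_sqrt hs
      nlinarith
    have hX : 0 < Q * (r + Real.sqrt s) := by positivity
    have h3 : (1 / 4 : ℝ≥0∞) ≤ ENNReal.ofReal (Q * (r + Real.sqrt s)) * bdry (unif K) A :=
      h1.trans (mul_le_mul_left (ENNReal.ofReal_le_ofReal (mul_le_mul_of_nonneg_left h2 hQ.le)) _)
    have e1 : ENNReal.ofReal (1 / (4 * Q) / (r + Real.sqrt s)) =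
        (ENNReal.ofReal (Q * (r + Real.sqrt s)))⁻¹ * (1 / 4) := by
      have e2 : (1 / 4 : ℝ≥0∞) = ENNReal.ofReal (1 / 4) := by
        rw [ENNReal.ofReal_div_of_pos (by norm_num)]
        norm_num
      rw [e2, ← ENNReal.ofReal_inv_of_pos hX, ← ENNReal.ofReal_mul (by positivity)]
      congr 1
      field_simp
    rw [e1]
    calc (ENNReal.ofReal (Q * (r + Real.sqrt s)))⁻¹ * (1 / 4)
        ≤ (ENNReal.ofReal (Q * (r + Real.sqrt s)))⁻¹ *
            (ENNReal.ofReal (Q * (r + Real.sqrt s)) * bdry (unif K) A) := mul_le_mul_right h3 _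
      _ = bdry (unif K) A := by
          rw [← mul_assoc, ENNReal.inv_mul_cancel (by simpa using hX) ENNReal.ofReal_ne_top,
            one_mul]
  have hone : ∀ (n : ℕ) (K : Set (Euc n)), SymmetricBody K → ∀ A : Set (Euc n),
      min (unif K A) (1 - unif K A) ≤ 1 := by
    intro n K hK A
    have hprob : IsProbabilityMeasure (unif K) :=
      Pool.Agent.R754.KG.un_prob (vol_pos hK.int).ne' hK.comp.measure_lt_top.ne
    exact (min_le_left _ _).trans prob_le_one
  refine ⟨p, c, hp, hc0, fun n K hK r hr hS => ⟨fun t ht hH A _ hA => ?_,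
    fun s hs hcov A _ hA => ?_⟩⟩
  · -- the variances
    obtain ⟨s, hsd⟩ : ∃ s, s = Ch / t ^ 2 := ⟨_, rfl⟩
    have hs : 0 ≤ s := by rw [hsd]; positivity
    have hcov : ∀ θ : Euc n, ‖θ‖ = 1 → ∫ x, ⟪x, θ⟫_ℝ ^ 2 ∂(unif K) ≤ s := by
      intro θ hθ
      have hθ0 : θ ≠ 0 := by
        intro h
        rw [h, norm_zero] at hθ
        exact zero_ne_one hθ
      have h1 := HH (Fin n) K hK.comp hK.conv hK.int hK.symm (unif K) rfl θ (ENNReal.ofReal t) hθ
        (hH θ 0 hθ0)
      have h2 : ∫ x, ⟪x, θ⟫_ℝ ^ 2 ∂(unif K) =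
          Pool.Agent.W695.KH.EV K fun x => ⟪θ, x⟫_ℝ ^ 2 := by
        unfold unif Pool.Agent.W695.KH.EV
        rw [integral_smul_measure, ENNReal.toReal_inv, smul_eq_mul, inv_mul_eq_div]
        simp only [real_inner_comm]
      rw [h2, hsd, le_div_iff₀ (by positivity)]
      rw [← ENNReal.ofReal_pow ht.le, ← ENNReal.ofReal_mul (by positivity),
        ENNReal.ofReal_le_ofReal_iff hCh.le] at h1
      linarith
    have h1 := key n K hK r hr hS s hs hcov A hA
    have hm : 0 < min t (1 / r) := lt_min ht (by positivity)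
    have h2 : c * min t (1 / r) ≤ 1 / (4 * Q) / (r + Real.sqrt s) := by
      have hr1 : min t (1 / r) * r ≤ 1 := by
        have : min t (1 / r) ≤ 1 / r := min_le_right _ _
        rwa [le_div_iff₀ hr] at this
      have hss : Real.sqrt s = Real.sqrt Ch / t := by
        rw [hsd, Real.sqrt_div hCh.le, Real.sqrt_sq ht.le]
      have ht1 : min t (1 / r) * Real.sqrt s ≤ Real.sqrt Ch := by
        rw [hss, ← mul_div_assoc, div_le_iff₀ ht, mul_comm]
        exact mul_le_mul_of_nonneg_left (min_le_left _ _) hsC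
      rw [← hc2, le_div_iff₀ (by positivity)]
      have h3 : min t (1 / r) * (r + Real.sqrt s) ≤ 1 + Real.sqrt Ch := by linarith
      calc c * min t (1 / r) * (r + Real.sqrt s) = c * (min t (1 / r) * (r + Real.sqrt s)) := by
            ring
        _ ≤ c * (1 + Real.sqrt Ch) := mul_le_mul_of_nonneg_left h3 hc0.le
    calc ENNReal.ofReal (c * min t (1 / r)) * min (unif K A) (1 - unif K A)
        ≤ ENNReal.ofReal (c * min t (1 / r)) * 1 := mul_le_mul_right (hone n K hK A) _
      _ = ENNReal.ofReal (c * min t (1 / r)) := mul_one _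
      _ ≤ _ := (ENNReal.ofReal_le_ofReal h2).trans h1
  · have h1 := key n K hK r hr hS s hs hcov A hA
    have h2 : c / (r + Real.sqrt s) ≤ 1 / (4 * Q) / (r + Real.sqrt s) := by
      have := Real.sqrt_nonneg s
      exact div_le_div_of_nonneg_right hc1 (by positivity)
    calc ENNReal.ofReal (c / (r + Real.sqrt s)) * min (unif K A) (1 - unif K A)
        ≤ ENNReal.ofReal (c / (r + Real.sqrt s)) * 1 := mul_le_mul_right (hone n K hK A) _
      _ = ENNReal.ofReal (c / (r + Real.sqrt s)) := mul_one _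
      _ ≤ _ := (ENNReal.ofReal_le_ofReal h2).trans h1

end Pool.Agent.Results.MP_8d00da_gt.SymmetricConcentration
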