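import Pool.Agent.Run7.h444.ER5
import Pool.Agent.W695.KH.Final

/-!
# Symmetric sets and halfspaces determine the Cheeger constant of a symmetric convex body

For all `n` and all convex bodies `K = -K ⊂ ℝⁿ` with uniform probability measure `λ_K`,

  `D_Che(λ_K) ≥ c min (D_Che^Sym(λ_K), D_Che^Lin(λ_K))`

with an absolute constant `c > 0`, where `D_Che` is the Cheeger constant (an infimum over all Borel
sets), `D_Che^Lin` its linear relaxation (halfspaces only), and `D_Che^Sym` the same infimum over the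
symmetric Borel sets `S = -S` only. So Q1 for `K` (with some constant) is equivalent to the inequality
`D_Che^Sym(λ_K) ≥ c' D_Che^Lin(λ_K)`: among the sets which are not symmetric only the halfspaces
have to be considered.

The theorem is the one of helper444 for `MP_6d896a_gt` (`SymmetricSets`, where the size of the measure
is given by its covariance matrix), for the halfspace relaxation of this problem. Proof. (1) By the
coarea inequality and the inequality of Cheeger for the level sets of even functions,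
`Var f ≤ L E ‖∇ f‖²` for even `f`, with `L = 4 / t²`, `t = D_Che^Sym`. (2) By a discrete form of the
inequality of Bochner the same follows for odd functions with the constant `4 L + 8 ‖A‖`, `A` the
covariance matrix (modules `Run7.h444.ER1` to `ER5`). (3) The inequality for the central halfspaces
bounds the variances: `t² E ⟪a, x⟫² ≤ C` for `t = D_Che^Lin` (starting file `W214.KH.Sec`). (4) The
isoperimetric inequality for all sets follows (Buser, Ledoux; starting files `W695.KH`).
-/

set_option autoImplicit false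

namespace Pool.Agent.Results.MP_8d00da_gt.SymmetricSets

open MeasureTheory Set
open scoped ENNReal InnerProductSpace

/-- Euclidean space of dimension `n` -/
abbrev Euc (n : ℕ) : Type := EuclideanSpace ℝ (Fin n)

/-- the uniform probability measure `λ_K` on `K` -/
noncomputable def unif {n : ℕ} (K : Set (Euc n)) : Measure (Euc n) :=
  (volume K)⁻¹ • volume.restrict K

/-- convex bodies `K = -K` -/
structure SymmetricBody {n : ℕ} (K : Set (Euc n)) : Prop where
  comp : IsCompact K
  conv : Convex ℝ K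
  int : (interior K).Nonempty
  symm : ∀ x ∈ K, -x ∈ K

/-- Minkowski (exterior) boundary measure `μ⁺(A)` -/
noncomputable def bdry {n : ℕ} (μ : Measure (Euc n)) (A : Set (Euc n)) : ℝ≥0∞ :=
  Filter.liminf (fun ε : ℝ => (μ (Metric.thickening ε A) - μ A) / ENNReal.ofReal ε)
    (nhdsWithin 0 (Set.Ioi 0))

/-- the Cheeger constant `D_Che(μ)`: the infimum of `μ⁺(A) / min(μ A, 1 - μ A)` over the Borel
sets `A` with `0 < μ A < 1` -/
noncomputable def cheeger {n : ℕ} (μ : Measure (Euc n)) : ℝ≥0∞ :=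
  ⨅ (A : Set (Euc n)) (_ : MeasurableSet A) (_ : 0 < μ A) (_ : μ A < 1),
    bdry μ A / min (μ A) (1 - μ A)

/-- the same infimum over the symmetric Borel sets `A = -A` with `0 < μ A < 1` -/
noncomputable def cheegerSym {n : ℕ} (μ : Measure (Euc n)) : ℝ≥0∞ :=
  ⨅ (A : Set (Euc n)) (_ : MeasurableSet A) (_ : ∀ x, x ∈ A ↔ -x ∈ A) (_ : 0 < μ A) (_ : μ A < 1),
    bdry μ A / min (μ A) (1 - μ A)

/-- the halfspace `⟪u, x⟫ ≤ b` -/
def halfspace {n : ℕ} (u : Euc n) (b : ℝ) : Set (Euc n) := {x | inner ℝ u x ≤ b}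

/-- the linear relaxation `D_Che^Lin(μ)`: the same infimum over the halfspaces -/
noncomputable def cheegerLin {n : ℕ} (μ : Measure (Euc n)) : ℝ≥0∞ :=
  ⨅ (u : Euc n) (b : ℝ) (_ : u ≠ 0) (_ : 0 < μ (halfspace u b)) (_ : μ (halfspace u b) < 1),
    bdry μ (halfspace u b) / min (μ (halfspace u b)) (1 - μ (halfspace u b))

theorem bdry_eq {n : ℕ} (μ : Measure (Euc n)) (S : Set (Euc n)) :
    bdry μ S = Run7.h444.ER.bd μ S := rfl

/-- from an infimum of quotients to an inequality for one set -/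
theorem le_of_le_div {n : ℕ} (μ : Measure (Euc n)) [IsProbabilityMeasure μ] (S : Set (Euc n))
    (a : ℝ≥0∞) (h : 0 < μ S → μ S < 1 → a ≤ bdry μ S / min (μ S) (1 - μ S)) :
    a * min (μ S) (1 - μ S) ≤ bdry μ S := by
  by_cases h0 : μ S = 0
  · rw [h0, min_eq_left (by simp), mul_zero]
    exact bot_le
  by_cases h1 : μ S = 1
  · rw [h1, tsub_self, min_eq_right (by simp), mul_zero]
    exact bot_le
  have hlt : μ S < 1 := lt_of_le_of_ne prob_le_one h1
  have h3 := h (pos_iff_ne_zero.2 h0) hlt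
  have h4 := mul_le_mul_left h3 (min (μ S) (1 - μ S))
  refine h4.trans ?_
  rw [ENNReal.div_mul_cancel (lt_min (pos_iff_ne_zero.2 h0) (tsub_pos_of_lt hlt)).ne'
    (ne_top_of_le_ne_top (measure_ne_top μ S) (min_le_left _ _))]

/-- **Symmetric sets and halfspaces suffice.** There is an absolute constant `c > 0` such that for all
`n` and all convex bodies `K = -K` in `ℝⁿ`: `D_Che(λ_K) ≥ c min (D_Che^Sym(λ_K), D_Che^Lin(λ_K))`. -/
theorem result : ∃ c : ℝ, 0 < c ∧ ∀ (n : ℕ) (K : Set (Euc n)), SymmetricBody K →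
    ENNReal.ofReal c * min (cheegerSym (unif K)) (cheegerLin (unif K)) ≤ cheeger (unif K) := by
  obtain ⟨C, hC, hhalf⟩ := Pool.Agent.W695.KH.half
  refine ⟨min 1 (1 / Real.sqrt C) / 62, by positivity, fun n K hK => ?_⟩
  have hvol : 0 < volume K := lt_of_lt_of_le (isOpen_interior.measure_pos volume hK.int)
    (measure_mono interior_subset)
  have hfin : volume K ≠ ⊤ := hK.comp.measure_lt_top.ne
  obtain ⟨μ, hμ⟩ : ∃ μ, μ = unif K := ⟨_, rfl⟩
  have hprob : IsProbabilityMeasure μ := by
    refine ⟨?_⟩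
    rw [hμ]
    unfold unif
    rw [Measure.smul_apply, Measure.restrict_apply_univ, smul_eq_mul,
      ENNReal.inv_mul_cancel hvol.ne' hfin]
  rw [← hμ]
  obtain ⟨c, hc⟩ : ∃ c, c = min 1 (1 / Real.sqrt C) / 62 := ⟨_, rfl⟩
  have hsC : 0 < Real.sqrt C := Real.sqrt_pos.2 hC
  have hc0 : 0 < c := by rw [hc]; positivity
  rw [← hc]
  -- the inequality for one real number below the minimum
  have main : ∀ t : ℝ, 0 < t → ENNReal.ofReal t ≤ min (cheegerSym μ) (cheegerLin μ) →
      ENNReal.ofReal c * ENNReal.ofReal t ≤ cheeger μ := by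
    intro t ht0 htm
    obtain ⟨ht1, ht2⟩ := le_min_iff.1 htm
    have hmin : ∀ S : Set (Euc n), MeasurableSet S → μ Sᶜ = 1 - μ S :=
      fun S hS => prob_compl_eq_one_sub hS
    have H : ∀ S : Set (Euc n), MeasurableSet S → (∀ x, x ∈ S → -x ∈ S) →
        ENNReal.ofReal t * min (μ S) (μ Sᶜ) ≤ Run7.h444.ER.bd μ S := by
      intro S hS hsym
      rw [hmin S hS, ← bdry_eq]
      refine le_of_le_div μ S _ fun h0 h1 => ht1.trans ?_
      unfold cheegerSym
      refine iInf_le_of_le S (iInf_le_of_le hS (iInf_le_of_le (fun x => ⟨hsym x, fun h => ?_⟩)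
        (iInf_le_of_le h0 (iInf_le_of_le h1 le_rfl))))
      have := hsym _ h
      rwa [neg_neg] at this
    have hone : ∀ a : Euc n, ‖a‖ = 1 →
        Pool.Agent.W695.KH.EV K (fun x => ⟪a, x⟫_ℝ ^ 2) ≤ C / t ^ 2 := by
      intro a ha
      have ha0 : a ≠ 0 := by
        rintro rfl
        rw [norm_zero] at ha
        exact zero_ne_one ha
      have h1 := hhalf (Fin n) K hK.comp hK.conv hK.int hK.symm μ hμ a (ENNReal.ofReal t) ha (by
        refine le_of_le_div μ (halfspace a 0) (ENNReal.ofReal t) fun h0 h1 => ht2.trans ?_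
        unfold cheegerLin
        exact iInf_le_of_le a (iInf_le_of_le 0 (iInf_le_of_le ha0 (iInf_le_of_le h0
          (iInf_le_of_le h1 le_rfl)))))
      rw [← ENNReal.ofReal_pow ht0.le, ← ENNReal.ofReal_mul (by positivity)] at h1
      have h2 := (ENNReal.ofReal_le_ofReal_iff hC.le).1 h1
      rw [le_div_iff₀ (by positivity), mul_comm]
      exact h2
    have hcov : ∀ w : Euc n, Pool.Agent.W695.KH.EV K (fun x => ⟪x, w⟫_ℝ ^ 2) ≤
        C / t ^ 2 * ‖w‖ ^ 2 := by
      intro w
      by_cases hw : w = 0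
      · subst hw
        have : Pool.Agent.W695.KH.EV K (fun x => ⟪x, (0 : Euc n)⟫_ℝ ^ 2) = 0 := by
          unfold Pool.Agent.W695.KH.EV
          simp
        rw [this]
        positivity
      have hn : 0 < ‖w‖ := norm_pos_iff.2 hw
      have h1 := hone (‖w‖⁻¹ • w) (by rw [norm_smul, norm_inv, norm_norm, inv_mul_cancel₀ hn.ne'])
      have h2 : Pool.Agent.W695.KH.EV K (fun x => ⟪‖w‖⁻¹ • w, x⟫_ℝ ^ 2) =
          (‖w‖⁻¹) ^ 2 * Pool.Agent.W695.KH.EV K (fun x => ⟪x, w⟫_ℝ ^ 2) := by
        unfold Pool.Agent.W695.KH.EV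
        rw [← mul_div_assoc, ← integral_const_mul]
        congr 1
        refine integral_congr_ae (Filter.Eventually.of_forall fun x => ?_)
        simp only [real_inner_smul_left, real_inner_comm w x]
        ring
      rw [h2] at h1
      have h3 := mul_le_mul_of_nonneg_right h1 (sq_nonneg ‖w‖)
      have h4 : (‖w‖⁻¹) ^ 2 * Pool.Agent.W695.KH.EV K (fun x => ⟪x, w⟫_ℝ ^ 2) * ‖w‖ ^ 2 =
          Pool.Agent.W695.KH.EV K (fun x => ⟪x, w⟫_ℝ ^ 2) := by
        field_simp
      rwa [h4] at h3
    have key : ∀ S : Set (Euc n), MeasurableSet S →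
        ENNReal.ofReal (c * t) * min (μ S) (1 - μ S) ≤ bdry μ S := by
      intro S hS
      have h1 := Run7.h444.ER.sets_min K hK.comp hK.conv hvol hK.symm μ hμ t (C / t ^ 2) ht0
        (by positivity) hcov H S hS
      have h2 : 1 / Real.sqrt (C / t ^ 2) = t * (1 / Real.sqrt C) := by
        rw [Real.sqrt_div hC.le, Real.sqrt_sq ht0.le]
        field_simp
      have h3 : min t (1 / Real.sqrt (C / t ^ 2)) / 62 = c * t := by
        rw [h2, hc]
        have : min t (t * (1 / Real.sqrt C)) = t * min 1 (1 / Real.sqrt C) := by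
          rw [mul_min_of_nonneg _ _ ht0.le, mul_one]
        rw [this]
        ring
      rw [h3, hmin S hS] at h1
      exact h1
    rw [← ENNReal.ofReal_mul hc0.le]
    unfold cheeger
    refine le_iInf fun S => le_iInf fun hS => le_iInf fun h0 => le_iInf fun h1 => ?_
    have hSc : 1 - μ S ≠ 0 := (tsub_pos_of_lt h1).ne'
    rw [ENNReal.le_div_iff_mul_le (Or.inl (lt_min h0 (pos_iff_ne_zero.2 hSc)).ne')
      (Or.inl (ne_top_of_le_ne_top (measure_ne_top μ S) (min_le_left _ _)))]
    exact key S hS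
  -- all real numbers below the minimum
  obtain ⟨M, hM⟩ : ∃ M, M = min (cheegerSym μ) (cheegerLin μ) := ⟨_, rfl⟩
  rw [← hM] at main ⊢
  have hcE : ENNReal.ofReal c ≠ 0 := (ENNReal.ofReal_pos.2 hc0).ne'
  rw [mul_comm, ← ENNReal.le_div_iff_mul_le (Or.inl hcE) (Or.inl ENNReal.ofReal_ne_top)]
  refine le_of_forall_lt fun b hb => ?_
  obtain ⟨b', hb1, hb2⟩ := exists_between hb
  have hb2t : b' ≠ ⊤ := hb2.ne_top
  have h1 := main b'.toReal (ENNReal.toReal_pos (ne_bot_of_gt hb1) hb2t) (by
    rw [ENNReal.ofReal_toReal hb2t]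
    exact hb2.le)
  rw [ENNReal.ofReal_toReal hb2t, mul_comm,
    ← ENNReal.le_div_iff_mul_le (Or.inl hcE) (Or.inl ENNReal.ofReal_ne_top)] at h1
  exact lt_of_lt_of_le hb1 h1

end Pool.Agent.Results.MP_8d00da_gt.SymmetricSets
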